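import Pool.Agent.SGL.StmtsS

/-!
# Squad SGL, row LAY: the layout exists (from the rows RUN, RPT, XOR, RKS)
-/

noncomputable section

namespace Pool.Agent.SGL.H21

open Pool.Agent.SGE Pool.Agent.SGP Pool.Agent.SGY Pool.Agent.SGD

theorem lay (hRUN : RunStmt) (hRPT : RptStmt) (hXOR : XorStmt) (hRKS : RksStmt) : LayStmt := by
  intro V _ a b c E F hnt hns σ hσ
  obtain ⟨v, C₁, C, S, hr⟩ := hRUN hnt hns _ rfl
  obtain ⟨x, h1, h2, h3, h4⟩ := hXOR hr (hRPT hr) σ hσ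
  exact hRKS hr σ x h1 h2 h3 h4

end Pool.Agent.SGL.H21
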