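import Pool.Agent.SGL.StmtsA

/-!
# Squad SGL, row NSG: if all non-facial triangles contain `a` there is no separation
-/

noncomputable section

namespace Pool.Agent.SGL.H21

open Pool.Agent.SGE Pool.Agent.SGP Pool.Agent.SGY Pool.Agent.SGD

theorem nsg_chain {V : Type} (R : V → V → Prop) (U : Set V) : ∀ (l : List V) (t₁ : V),
    (t₁ :: l).IsChain R →
    (∀ s t, s ∈ t₁ :: l → t ∈ t₁ :: l → R s t → (s ∈ U ↔ t ∈ U)) →
    ∀ t ∈ t₁ :: l, (t ∈ U ↔ t₁ ∈ U) := by
  intro l
  induction l with
  | nil =>
    intro t₁ _ _ t ht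
    rw [List.mem_singleton] at ht
    rw [ht]
  | cons t₂ l ih =>
    intro t₁ hch hR t ht
    rw [List.isChain_cons_cons] at hch
    have h12 : t₁ ∈ U ↔ t₂ ∈ U := hR t₁ t₂ (by simp) (by simp) hch.1
    rcases List.mem_cons.1 ht with rfl | ht
    · exact Iff.rfl
    · rw [ih t₂ hch.2 (fun s t hs ht h => hR s t (List.mem_cons_of_mem _ hs)
        (List.mem_cons_of_mem _ ht) h) t ht, h12]

theorem nsg_loc {V : Type} [Fintype V] {E : V → V → Prop} {Φ : V → V → V → Prop}
    (hS : Sph E Φ) (U : Set V) {p q r : V} (h : Φ p q r) (hqr : q ≠ r)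
    (hcl : ∀ u ∈ U, ∀ w, E u w → w ∈ U ∨ w = p ∨ w = q ∨ w = r) :
    Φ p r q ∨ ((∃ t, E p t ∧ E r t ∧ t ≠ q ∧ t ≠ r) ∧
      ((∀ t, E p t → t ≠ q → t ≠ r → t ∈ U) ∨ (∀ t, E p t → t ≠ q → t ≠ r → t ∉ U))) := by
  obtain ⟨l, hch, hnd, hmem⟩ := hS.cyc p q (hS.fe _ _ _ h)
  cases l with
  | nil =>
    rw [List.nil_append, List.isChain_cons_cons] at hch
    exact absurd (hS.fn _ _ _ _ hch.1 h) hqr
  | cons r' l' =>
    rw [List.cons_append, List.isChain_cons_cons] at hch
    have hr : r' = r := hS.fn _ _ _ _ hch.1 h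
    subst hr
    cases l' with
    | nil =>
      left
      rw [List.nil_append, List.isChain_cons_cons] at hch
      exact hch.2.1
    | cons t₁ l'' =>
      right
      rw [List.cons_append, List.isChain_cons_cons] at hch
      obtain ⟨_, hrt, hch2⟩ := hch
      have hEp : ∀ t ∈ t₁ :: l'', E p t := by
        intro t ht
        rw [hmem]
        simp only [List.mem_cons] at ht ⊢
        tauto
      have hne : ∀ t ∈ t₁ :: l'', t ≠ q ∧ t ≠ r' := by
        intro t ht
        rw [List.nodup_cons, List.nodup_cons] at hnd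
        constructor
        · rintro rfl
          exact hnd.1 (List.mem_cons_of_mem _ ht)
        · rintro rfl
          exact hnd.2.1 ht
      refine ⟨⟨t₁, hEp t₁ (by simp), hS.fe _ _ _ (hS.rot _ _ _ hrt), hne t₁ (by simp)⟩, ?_⟩
      have hch3 : (t₁ :: l'').IsChain (Φ p) := by
        have h4 : ((t₁ :: l'') ++ [q]).IsChain (Φ p) := by
          rw [List.cons_append]; exact hch2
        exact (List.isChain_append.1 h4).1
      have hnp : ∀ t ∈ t₁ :: l'', t ≠ p := by
        intro t ht e
        have := hEp t ht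
        rw [e] at this
        exact hS.irr p this
      have hall := nsg_chain (Φ p) U l'' t₁ hch3 (by
        intro s t hs ht hst
        have hE : E s t := hS.fe _ _ _ (hS.rot _ _ _ hst)
        constructor
        · intro hsU
          rcases hcl s hsU t hE with h5 | h5 | h5 | h5
          · exact h5
          · exact absurd h5 (hnp t ht)
          · exact absurd h5 (hne t ht).1
          · exact absurd h5 (hne t ht).2
        · intro htU
          rcases hcl t htU s (hS.sym _ _ hE) with h5 | h5 | h5 | h5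
          · exact h5
          · exact absurd h5 (hnp s hs)
          · exact absurd h5 (hne s hs).1
          · exact absurd h5 (hne s hs).2)
      have hin : ∀ t, E p t → t ≠ q → t ≠ r' → t ∈ t₁ :: l'' := by
        intro t ht h1 h2
        rw [hmem, List.mem_cons, List.mem_cons] at ht
        rcases ht with h3 | h3 | h3
        · exact absurd h3 h1
        · exact absurd h3 h2
        · exact h3
      by_cases hU : t₁ ∈ U
      · left
        intro t ht h1 h2
        exact (hall t (hin t ht h1 h2)).2 hU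
      · right
        intro t ht h1 h2 h3
        exact hU ((hall t (hin t ht h1 h2)).1 h3)

theorem nsg_two {V : Type} [Fintype V] {E : V → V → Prop} {Φ : V → V → V → Prop}
    (hS : Sph E Φ) {p q r : V} (h : Φ p q r) (h' : Φ p r q) (hqr : q ≠ r) :
    ∀ t, E p t → t = q ∨ t = r := by
  obtain ⟨l, hch, hnd, hmem⟩ := hS.cyc p q (hS.fe _ _ _ h)
  intro t ht
  rw [hmem] at ht
  cases l with
  | nil =>
    left
    exact List.mem_singleton.1 ht
  | cons r' l' =>
    rw [List.cons_append, List.isChain_cons_cons] at hch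
    have hr : r' = r := hS.fn _ _ _ _ hch.1 h
    subst hr
    cases l' with
    | nil =>
      simp only [List.mem_cons, List.not_mem_nil, or_false] at ht
      exact ht
    | cons t₁ l'' =>
      rw [List.cons_append, List.isChain_cons_cons] at hch
      have e : t₁ = q := hS.fn _ _ _ _ hch.2.1 h'
      subst e
      exfalso
      rw [List.nodup_cons] at hnd
      exact hnd.1 (by simp)

theorem nsg_core {V : Type} [Fintype V] {E : V → V → Prop} {Φ : V → V → V → Prop} (a : V)
    (hS : Sph E Φ) (ha : Rel E a) (U : Set V) (x y z : V) (hxy : E x y) (hyz : E y z)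
    (hzx : E z x) (hne : U.Nonempty) (hrel : ∀ u ∈ U, Rel E u) (hx : x ∉ U) (hy : y ∉ U)
    (hz : z ∉ U) (hcl : ∀ u ∈ U, ∀ w, E u w → w ∈ U ∨ w = x ∨ w = y ∨ w = z) (haU : a ∉ U)
    (hax : a ≠ x) (hay : a ≠ y) (haz : a ≠ z) (hΦ : Φ x y z) : False := by
  have nxy : x ≠ y := fun e => by rw [e] at hxy; exact hS.irr _ hxy
  have nyz : y ≠ z := fun e => by rw [e] at hyz; exact hS.irr _ hyz
  have nzx : z ≠ x := fun e => by rw [e] at hzx; exact hS.irr _ hzx
  have hΦ1 : Φ y z x := hS.rot _ _ _ hΦ
  have hΦ2 : Φ z x y := hS.rot _ _ _ hΦ1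
  obtain ⟨u₀, hu₀⟩ := hne
  obtain ⟨w₀, hw₀⟩ := hrel u₀ hu₀
  by_cases hm : Φ x z y
  · have k1 := nsg_two hS hΦ hm nyz
    have hm1 : Φ z y x := hS.rot _ _ _ hm
    have hm2 : Φ y x z := hS.rot _ _ _ hm1
    have k2 := nsg_two hS hΦ1 hm2 nzx
    have k3 := nsg_two hS hΦ2 hm1 nxy
    have key : ∀ v, Relation.ReflTransGen E x v → v = x ∨ v = y ∨ v = z := by
      intro v hv
      induction hv with
      | refl => exact Or.inl rfl
      | @tail b c _ hbc ih =>
        rcases ih with rfl | rfl | rfl
        · rcases k1 _ hbc with h | h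
          · exact Or.inr (Or.inl h)
          · exact Or.inr (Or.inr h)
        · rcases k2 _ hbc with h | h
          · exact Or.inr (Or.inr h)
          · exact Or.inl h
        · rcases k3 _ hbc with h | h
          · exact Or.inl h
          · exact Or.inr (Or.inl h)
    have this := key u₀ (hS.con x y u₀ w₀ hxy hw₀)
    rcases this with h | h | h
    · rw [h] at hu₀; exact hx hu₀
    · rw [h] at hu₀; exact hy hu₀
    · rw [h] at hu₀; exact hz hu₀
  · have hm1 : ¬ Φ y x z := fun h => hm (hS.rot _ _ _ (h))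
    have hm2 : ¬ Φ z y x := fun h => hm1 (hS.rot _ _ _ h)
    obtain ⟨⟨t1, ex1, ez1, n1y, n1z⟩, d1⟩ := (nsg_loc hS U hΦ nyz hcl).resolve_left hm
    obtain ⟨⟨t2, ey2, ex2, n2z, n2x⟩, d2⟩ := (nsg_loc hS U hΦ1 nzx (by
      intro u hu w huw
      rcases hcl u hu w huw with h | h | h | h <;> simp [h])).resolve_left hm1
    obtain ⟨⟨t3, ez3, ey3, n3x, n3y⟩, d3⟩ := (nsg_loc hS U hΦ2 nxy (by
      intro u hu w huw
      rcases hcl u hu w huw with h | h | h | h <;> simp [h])).resolve_left hm2
    have n1x : t1 ≠ x := fun e => by rw [e] at ex1; exact hS.irr _ ex1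
    have n2y : t2 ≠ y := fun e => by rw [e] at ey2; exact hS.irr _ ey2
    have n3z : t3 ≠ z := fun e => by rw [e] at ez3; exact hS.irr _ ez3
    have caseP : (∀ t, E x t → t ≠ y → t ≠ z → t ∈ U) → (∀ t, E y t → t ≠ z → t ≠ x → t ∈ U) →
        (∀ t, E z t → t ≠ x → t ≠ y → t ∈ U) → False := by
      intro P1 P2 P3
      obtain ⟨a', ha'⟩ := ha
      have key : ∀ v, Relation.ReflTransGen E a v → v ∉ U ∧ v ≠ x ∧ v ≠ y ∧ v ≠ z := by
        intro v hv
        induction hv with
        | refl => exact ⟨haU, hax, hay, haz⟩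
        | @tail b c _ hbc ih =>
          obtain ⟨i1, i2, i3, i4⟩ := ih
          refine ⟨?_, ?_, ?_, ?_⟩
          · intro hc
            rcases hcl c hc b (hS.sym _ _ hbc) with h | h | h | h
            · exact i1 h
            · exact i2 h
            · exact i3 h
            · exact i4 h
          · rintro rfl
            exact i1 (P1 b (hS.sym _ _ hbc) i3 i4)
          · rintro rfl
            exact i1 (P2 b (hS.sym _ _ hbc) i4 i2)
          · rintro rfl
            exact i1 (P3 b (hS.sym _ _ hbc) i2 i3)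
      exact (key x (hS.con a a' x y ha' hxy)).2.1 rfl
    have caseQ : (∀ t, E x t → t ≠ y → t ≠ z → t ∉ U) → (∀ t, E y t → t ≠ z → t ≠ x → t ∉ U) →
        (∀ t, E z t → t ≠ x → t ≠ y → t ∉ U) → False := by
      intro Q1 Q2 Q3
      obtain ⟨a', ha'⟩ := ha
      have key : ∀ v, Relation.ReflTransGen E u₀ v → v ∈ U := by
        intro v hv
        induction hv with
        | refl => exact hu₀
        | @tail b c _ hbc ih =>
          have b1 : b ≠ x := fun e => hx (e ▸ ih)
          have b2 : b ≠ y := fun e => hy (e ▸ ih)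
          have b3 : b ≠ z := fun e => hz (e ▸ ih)
          rcases hcl b ih c hbc with h | h | h | h
          · exact h
          · subst h
            exact absurd ih (Q1 b (hS.sym _ _ hbc) b2 b3)
          · subst h
            exact absurd ih (Q2 b (hS.sym _ _ hbc) b3 b1)
          · subst h
            exact absurd ih (Q3 b (hS.sym _ _ hbc) b1 b2)
      exact haU (key a (hS.con u₀ w₀ a a' hw₀ ha'))
    rcases d1 with P1 | Q1
    · rcases d2 with P2 | Q2
      · rcases d3 with P3 | Q3
        · exact caseP P1 P2 P3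
        · exact Q3 t1 ez1 n1x n1y (P1 t1 ex1 n1y n1z)
      · exact Q2 t2 ey2 n2z n2x (P1 t2 ex2 n2y n2z)
    · rcases d3 with P3 | Q3
      · exact Q1 t1 ex1 n1y n1z (P3 t1 ez1 n1x n1y)
      · rcases d2 with P2 | Q2
        · exact Q1 t2 ex2 n2y n2z (P2 t2 ey2 n2z n2x)
        · exact caseQ Q1 Q2 Q3

theorem nsg : NsgStmt := by
  intro V _ E Φ a hS ha hNF U x y z hxy hyz hzx hne hrel hx hy hz hcl haU
  by_contra hcon
  push Not at hcon
  obtain ⟨hax, hay, haz⟩ := hcon
  by_cases h1 : Φ x y z
  · exact nsg_core a hS ha U x y z hxy hyz hzx hne hrel hx hy hz hcl haU hax hay haz h1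
  · by_cases h2 : Φ y x z
    · refine nsg_core a hS ha U y x z (hS.sym _ _ hxy) (hS.sym _ _ hzx) (hS.sym _ _ hyz) hne hrel
        hy hx hz ?_ haU hay hax haz h2
      intro u hu w huw
      rcases hcl u hu w huw with h | h | h | h
      · exact Or.inl h
      · exact Or.inr (Or.inr (Or.inl h))
      · exact Or.inr (Or.inl h)
      · exact Or.inr (Or.inr (Or.inr h))
    · rcases hNF x y z ⟨hxy, hyz, hzx, h1, h2⟩ with h | h | h
      · exact hax h
      · exact hay h
      · exact haz h

end Pool.Agent.SGL.H21
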