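import Pool.Agent.SGL.StmtsU

/-!
# Squad SGL, row NYC: an upper edge and an edge inside a slice or to the next slice
-/

noncomputable section

namespace Pool.Agent.SGL.H21

open Pool.Agent.SGE Pool.Agent.SGP Pool.Agent.SGY Pool.Agent.SGD

theorem nyc : NycStmt := by
  intro V a c R h s ρ A f hg hinj hle hA p q r t hpq hr ht hrt
  obtain ⟨hp, hsp⟩ := hA.l p q hpq
  have hq := hA.r p q hpq
  by_cases hpr : p = r
  · exact com (Or.inl (by rw [hpr]))
  by_cases hpt : p = t
  · exact com (Or.inr (Or.inl (by rw [hpt])))
  by_cases hqr : q = r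
  · exact com (Or.inr (Or.inr (Or.inl (by rw [hqr]))))
  by_cases hqt : q = t
  · exact com (Or.inr (Or.inr (Or.inr (by rw [hqt]))))
  have npr : ρ p ≠ ρ r := fun e => hpr (hinj p hp r hr e)
  have npt : ρ p ≠ ρ t := fun e => hpt (hinj p hp t ht e)
  -- points of lower slices are below
  have low : ∀ z ∈ R, s z < h → o (f p) (f q) (f z) < 0 := by
    intro z hz hsz
    rcases hq with rfl | ⟨_, hqR, hsq, hρ⟩
    · have h1 := hg.ra z hz p hp (by rw [hsp]; exact hsz)
      rw [o_swap]; linarith
    · have h1 := hg.dn p hp q hqR z hz (by rw [hsp, hsq]) hρ (by rw [hsp]; exact hsz)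
      rw [o_swap]; linarith
  have mid : ∀ z ∈ R, s z = h → ρ p < ρ z → (q = a ∨ ρ z < ρ q) → o (f p) (f q) (f z) < 0 :=
    fun z hz h1 h2 h3 => hA.m p q hpq z hz h1 h2 h3
  -- the x-coordinates left of `p`
  have leftx : ∀ z ∈ R, ρ z < ρ p → (f z).1 < (f p).1 ∧ (f z).1 < (f q).1 := by
    intro z hz h1
    refine ⟨hg.xx z hz p hp h1, ?_⟩
    rcases hq with rfl | ⟨_, hqR, hsq, hρ⟩
    · exact hg.xa z hz
    · exact hg.xx z hz q hqR (h1.trans hρ)
  rcases hrt with ⟨hsrt, hρrt, hcons⟩ | hst
  · by_cases hsr : s r < h
    · exact same_neg (low r hr hsr) (low t ht (by rw [← hsrt]; exact hsr))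
    · have hsr' : s r = h := le_antisymm (hle r hr) (not_lt.1 hsr)
      have hst' : s t = h := by rw [← hsrt]; exact hsr'
      rcases lt_or_gt_of_ne npr with hl | hl
      · -- `p` left of `r`
        rcases hq with hqa | ⟨hqa, hqR, hsq, hρ⟩
        · exact same_neg (mid r hr hsr' hl (Or.inl hqa)) (mid t ht hst' (hl.trans hρrt) (Or.inl hqa))
        · have nqr : ρ q ≠ ρ r := fun e => hqr (hinj q hqR r hr e)
          have nqt : ρ q ≠ ρ t := fun e => hqt (hinj q hqR t ht e)
          rcases lt_or_gt_of_ne nqr with hl2 | hl2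
          · exact sepx (hg.xx p hp r hr hl) (hg.xx p hp t ht (hl.trans hρrt))
              (hg.xx q hqR r hr hl2) (hg.xx q hqR t ht (hl2.trans hρrt))
          · have hqt2 : ρ t < ρ q := by
              rcases lt_or_gt_of_ne nqt with h3 | h3
              · exact absurd ⟨hl2, h3⟩ (hcons q hqR (by rw [hsq, hsr']))
              · exact h3
            exact same_neg (mid r hr hsr' hl (Or.inr hl2))
              (mid t ht hst' (hl.trans hρrt) (Or.inr hqt2))
      · -- `r` left of `p`
        have htp : ρ t < ρ p := by
          rcases lt_or_gt_of_ne npt with h3 | h3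
          · exact absurd ⟨hl, h3⟩ (hcons p hp (by rw [hsp, hsr']))
          · exact h3
        intro hx
        exact sepx (leftx r hr hl).1 (leftx r hr hl).2 (leftx t ht htp).1 (leftx t ht htp).2
          (xs_swap hx)
  · have hth := hle t ht
    have hsr : s r < h := by omega
    have hrt2 : s r < s t := by omega
    by_cases hst2 : s t < h
    · exact same_neg (low r hr hsr) (low t ht hst2)
    · have hst' : s t = h := le_antisymm hth (not_lt.1 hst2)
      rcases lt_or_gt_of_ne npt with hl | hl
      · rcases hq with hqa | ⟨hqa, hqR, hsq, hρ⟩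
        · exact same_neg (low r hr hsr) (mid t ht hst' hl (Or.inl hqa))
        · have nqt : ρ q ≠ ρ t := fun e => hqt (hinj q hqR t ht e)
          rcases lt_or_gt_of_ne nqt with h3 | h3
          · intro hx
            refine same_pos ?_ ?_ (xs_swap hx)
            · rw [o_rot]
              exact hg.dn p hp t ht r hr (by rw [hsp, hst']) hl (by rw [hsp]; exact hsr)
            · rw [o_rot]
              exact hg.dn q hqR t ht r hr (by rw [hsq, hst']) h3 (by rw [hsq]; exact hsr)
          · exact same_neg (low r hr hsr) (mid t ht hst' hl (Or.inr h3))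
      · intro hx
        refine same_neg ?_ ?_ (xs_swap hx)
        · rw [o_rot, o_swap]
          have h1 := hg.dn t ht p hp r hr (by rw [hsp, hst']) hl (by rw [hst']; exact hsr)
          linarith
        · rcases hq with hqa | ⟨hqa, hqR, hsq, hρ⟩
          · subst hqa
            have h1 := hg.ra r hr t ht hrt2
            rw [o_rot, o_swap]
            linarith
          · have h1 := hg.dn t ht q hqR r hr (by rw [hsq, hst']) (hl.trans hρ)
              (by rw [hst']; exact hsr)
            rw [o_rot, o_swap]
            linarith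

end Pool.Agent.SGL.H21
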